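import Mathlib
import Pool.Agent.H16.Xor2

set_option autoImplicit false

namespace Pool.Agent.Results.MP_02be1f_lc.Both

open Pool.Agent.H16.Xor MeasureTheory

theorem result :
    (∃ μ : Measure X, Good μ ∧ CompMeas μ ∧ ∃ ν : Measure X, Good ν ∧ LimitPt μ ν ∧ ¬ CompMeas ν) ∧
    (∃ μ : Measure X, Good μ ∧ CompMeas μ ∧ ¬ ComputablePred (LimLang μ)) :=
  ⟨q1, q2⟩

end Pool.Agent.Results.MP_02be1f_lc.Both
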